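import Mathlib

/-!
# Soluble and absolutely simple group-theoretic numbers: both sets are finite

For a `2`-group `P` of order `2 ^ m` one has `ie (A_5 × P) = 3 m + 7 + ie P`. Suitable `P` with
`ie P = 0, 1, 2` give every large number as `ie G` with `G` neither soluble nor simple.
-/

set_option autoImplicit false
set_option linter.unusedSectionVars false

namespace Pool.Agent.Results.MP_927db0_al.BothFinite

/-- The orders of the non-normal subgroups of `G`. -/
def NN (G : Type*) [Group G] : Set ℕ := {n | ∃ H : Subgroup G, Nat.card H = n ∧ ¬ H.Normal}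

/-- The number of orders of non-normal subgroups of `G`. -/
noncomputable def ie (G : Type*) [Group G] : ℕ := (NN G).ncard

/-! ### The alternating group of degree five -/

/-- The alternating group of degree five. -/
abbrev A5 := alternatingGroup (Fin 5)

theorem card_A5 : Nat.card A5 = 60 := by
  rw [nat_card_alternatingGroup, Nat.card_eq_fintype_card, Fintype.card_fin]
  rfl

theorem five_le_index (H : Subgroup A5) (hne : H ≠ ⊤) : 5 ≤ H.index := by
  have hk : (MulAction.toPermHom A5 (A5 ⧸ H)).ker = ⊥ := by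
    rcases (inferInstance : (MulAction.toPermHom A5 (A5 ⧸ H)).ker.Normal).eq_bot_or_eq_top with
      h | h
    · exact h
    · exfalso
      apply hne
      rw [← Subgroup.normalCore_eq_ker] at h
      rw [eq_top_iff, ← h]
      exact Subgroup.normalCore_le H
  have hinj := (MonoidHom.ker_eq_bot_iff _).mp hk
  have hd := Subgroup.card_dvd_of_injective _ hinj
  rw [card_A5, Nat.card_perm] at hd
  change 60 ∣ (H.index).factorial at hd
  by_contra hlt
  push Not at hlt
  interval_cases H.index <;> revert hd <;> decide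

theorem card_le (H : Subgroup A5) (hne : H ≠ ⊤) :
    Nat.card H = 1 ∨ Nat.card H = 2 ∨ Nat.card H = 3 ∨ Nat.card H = 4 ∨ Nat.card H = 5 ∨
      Nat.card H = 6 ∨ Nat.card H = 10 ∨ Nat.card H = 12 := by
  have h1 := five_le_index H hne
  have h2 := H.card_mul_index
  rw [card_A5] at h2
  have h3 : Nat.card H ≤ 12 := by
    by_contra h
    push Not at h
    nlinarith
  have h4 : Nat.card H ∣ 60 := ⟨_, h2.symm⟩
  interval_cases Nat.card H <;> revert h4 <;> decide

/-- A subgroup of the alternating group given by a list of permutations. -/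
theorem exists_of_list (L : List (Equiv.Perm (Fin 5))) (h1 : 1 ∈ L)
    (hm : ∀ a ∈ L, ∀ b ∈ L, a * b ∈ L) (hi : ∀ a ∈ L, a⁻¹ ∈ L)
    (hs : ∀ a ∈ L, Equiv.Perm.sign a = 1) : ∃ H : Subgroup A5, Nat.card H = L.toFinset.card := by
  let K : Subgroup (Equiv.Perm (Fin 5)) :=
    { carrier := {g | g ∈ L}
      mul_mem' := fun {a b} ha hb => hm a ha b hb
      one_mem' := h1
      inv_mem' := fun {a} ha => hi a ha }
  have hK : K ≤ alternatingGroup (Fin 5) := fun g hg => hs g hg
  refine ⟨K.subgroupOf (alternatingGroup (Fin 5)), ?_⟩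
  rw [Nat.card_congr (Subgroup.subgroupOfEquivOfLe hK).toEquiv]
  have : Nat.card K = Nat.card {g // g ∈ L.toFinset} := by
    apply Nat.card_congr
    exact Equiv.subtypeEquivRight (fun g => by rw [List.mem_toFinset]; rfl)
  rw [this, Nat.card_eq_fintype_card, Fintype.card_coe]

open Equiv in
/-- A three-cycle. -/
def a3 : Perm (Fin 5) := swap 0 1 * swap 1 2
open Equiv in
/-- A double transposition. -/
def b2 : Perm (Fin 5) := swap 0 1 * swap 3 4
open Equiv in
/-- A five-cycle. -/
def r5 : Perm (Fin 5) := finRotate 5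
open Equiv in
/-- A double transposition. -/
def s5 : Perm (Fin 5) := swap 1 4 * swap 2 3
open Equiv in
/-- A double transposition. -/
def v1 : Perm (Fin 5) := swap 0 1 * swap 2 3
open Equiv in
/-- A double transposition. -/
def v2 : Perm (Fin 5) := swap 0 2 * swap 1 3
/-- A subgroup of order six. -/
def L6 : List (Equiv.Perm (Fin 5)) := [1, a3, a3 * a3, b2, a3 * b2, a3 * a3 * b2]
/-- A subgroup of order ten. -/
def L10 : List (Equiv.Perm (Fin 5)) := [1, r5, r5 * r5, r5 * r5 * r5, r5 * r5 * r5 * r5, s5,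
  r5 * s5, r5 * r5 * s5, r5 * r5 * r5 * s5, r5 * r5 * r5 * r5 * s5]
/-- A subgroup of order twelve. -/
def L12 : List (Equiv.Perm (Fin 5)) := [1, v1, v2, v1 * v2, a3, v1 * a3, v2 * a3, v1 * v2 * a3,
  a3 * a3, v1 * a3 * a3, v2 * a3 * a3, v1 * v2 * a3 * a3]

theorem exists6 : ∃ H : Subgroup A5, Nat.card H = 6 := by
  have h5 : L6.toFinset.card = 6 := by decide +kernel
  rw [← h5]
  exact exists_of_list L6 (by decide +kernel) (by decide +kernel) (by decide +kernel)
    (by decide +kernel)

theorem exists10 : ∃ H : Subgroup A5, Nat.card H = 10 := by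
  have h5 : L10.toFinset.card = 10 := by decide +kernel
  rw [← h5]
  exact exists_of_list L10 (by decide +kernel) (by decide +kernel) (by decide +kernel)
    (by decide +kernel)

theorem exists12 : ∃ H : Subgroup A5, Nat.card H = 12 := by
  have h5 : L12.toFinset.card = 12 := by decide +kernel
  rw [← h5]
  exact exists_of_list L12 (by decide +kernel) (by decide +kernel) (by decide +kernel)
    (by decide +kernel)

theorem exists_prime_pow (p n : ℕ) (hp : p.Prime) (h : p ^ n ∣ 60) :
    ∃ H : Subgroup A5, Nat.card H = p ^ n := by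
  have := Fact.mk hp
  exact Sylow.exists_subgroup_card_pow_prime p (by rw [card_A5]; exact h)

theorem exists_A5 (h : ℕ) (hh : h = 2 ∨ h = 3 ∨ h = 4 ∨ h = 5 ∨ h = 6 ∨ h = 10 ∨ h = 12) :
    ∃ H : Subgroup A5, Nat.card H = h ∧ ¬ H.Normal := by
  have h1 : ∃ H : Subgroup A5, Nat.card H = h := by
    rcases hh with rfl | rfl | rfl | rfl | rfl | rfl | rfl
    · exact exists_prime_pow 2 1 Nat.prime_two (by norm_num)
    · exact exists_prime_pow 3 1 Nat.prime_three (by norm_num)
    · exact exists_prime_pow 2 2 Nat.prime_two (by norm_num)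
    · exact exists_prime_pow 5 1 Nat.prime_five (by norm_num)
    · exact exists6
    · exact exists10
    · exact exists12
  obtain ⟨H, hH⟩ := h1
  refine ⟨H, hH, fun hn => ?_⟩
  rcases hn.eq_bot_or_eq_top with e | e
  · rw [e, Subgroup.card_bot] at hH
    omega
  · rw [e, Subgroup.card_top, card_A5] at hH
    omega

/-! ### Direct products of the alternating group with a `2`-group -/

section product

variable {P : Type*} [Group P] [Finite P]

theorem prod_not_normal_left {G : Type*} [Group G] (H : Subgroup G) (Q : Subgroup P)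
    (hH : ¬ H.Normal) : ¬ (H.prod Q).Normal := by
  intro hn
  apply hH
  constructor
  intro a ha g
  have := hn.conj_mem (a, 1) (Subgroup.mem_prod.mpr ⟨ha, one_mem _⟩) (g, 1)
  exact (Subgroup.mem_prod.mp this).1

theorem prod_not_normal_right {G : Type*} [Group G] (H : Subgroup G) (Q : Subgroup P)
    (hQ : ¬ Q.Normal) : ¬ (H.prod Q).Normal := by
  intro hn
  apply hQ
  constructor
  intro a ha g
  have := hn.conj_mem (1, a) (Subgroup.mem_prod.mpr ⟨one_mem _, ha⟩) (1, g)
  exact (Subgroup.mem_prod.mp this).2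

theorem card_prod' {G : Type*} [Group G] (H : Subgroup G) (Q : Subgroup P) :
    Nat.card (H.prod Q) = Nat.card H * Nat.card Q := by
  rw [Nat.card_congr (Subgroup.prodEquiv H Q).toEquiv, Nat.card_prod]

theorem exists_P {m : ℕ} (hP : Nat.card P = 2 ^ m) {b : ℕ} (hb : b ≤ m) :
    ∃ Q : Subgroup P, Nat.card Q = 2 ^ b := by
  have := Fact.mk Nat.prime_two
  exact Sylow.exists_subgroup_card_pow_prime 2 (by rw [hP]; exact pow_dvd_pow 2 hb)

theorem mem_NN_of {m : ℕ} (hP : Nat.card P = 2 ^ m) {b h : ℕ} (hb : b ≤ m)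
    (hh : h = 2 ∨ h = 3 ∨ h = 4 ∨ h = 5 ∨ h = 6 ∨ h = 10 ∨ h = 12) :
    h * 2 ^ b ∈ NN (A5 × P) := by
  obtain ⟨H, hH, hHn⟩ := exists_A5 h hh
  obtain ⟨Q, hQ⟩ := exists_P hP hb
  exact ⟨H.prod Q, by rw [card_prod', hH, hQ], prod_not_normal_left H Q hHn⟩

theorem mem_NN_cases {m : ℕ} (hP : Nat.card P = 2 ^ m) (n : ℕ) (hn : n ∈ NN (A5 × P)) :
    (∃ a, a < m + 2 ∧ n = 2 ^ (a + 1)) ∨ (∃ a, a < m + 3 ∧ n = 3 * 2 ^ a) ∨
      (∃ a, a < m + 2 ∧ n = 5 * 2 ^ a) ∨ (∃ q ∈ NN P, n = 60 * q) := by
  obtain ⟨H, hH, hHn⟩ := hn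
  set f : A5 × P →* A5 := MonoidHom.fst A5 P with hf
  -- the order of `H`
  have hcard : Nat.card H = Nat.card (H.map f) * Nat.card (H ⊓ f.ker : Subgroup (A5 × P)) := by
    have e1 := (f.subgroupMap H).ker.card_mul_index
    rw [Subgroup.index_ker, MonoidHom.range_eq_top_of_surjective _
      (MonoidHom.subgroupMap_surjective f H), Subgroup.card_top] at e1
    rw [← e1, mul_comm]
    congr 1
    apply Nat.card_congr
    refine ⟨fun x => ⟨x.1.1, x.1.2, ?_⟩, fun x => ⟨⟨x.1, x.2.1⟩, ?_⟩, fun x => ?_, fun x => ?_⟩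
    · have := x.2
      rw [MonoidHom.mem_ker] at this
      exact congrArg Subtype.val this
    · rw [MonoidHom.mem_ker]
      exact Subtype.ext x.2.2
    · rfl
    · rfl
  have hK : ∃ b, b ≤ m ∧ Nat.card (H ⊓ f.ker : Subgroup (A5 × P)) = 2 ^ b := by
    rw [← Nat.dvd_prime_pow Nat.prime_two, ← hP]
    let g : (H ⊓ f.ker : Subgroup (A5 × P)) →* P :=
      (MonoidHom.snd A5 P).comp (H ⊓ f.ker : Subgroup (A5 × P)).subtype
    refine Subgroup.card_dvd_of_injective g ?_
    intro x y hxy
    have h1 : x.1.1 = 1 := x.2.2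
    have h2 : y.1.1 = 1 := y.2.2
    apply Subtype.ext
    apply Prod.ext
    · rw [h1, h2]
    · exact hxy
  obtain ⟨b, hb, hKb⟩ := hK
  rw [hKb] at hcard
  by_cases htop : H.map f = ⊤
  · -- `H` contains the alternating group
    right; right; right
    set N : Subgroup A5 := H.comap (MonoidHom.inl A5 P) with hN
    have hNn : N.Normal := by
      constructor
      intro a ha g
      have hg : g ∈ H.map f := by rw [htop]; trivial
      obtain ⟨⟨g', q⟩, hgH, hg'⟩ := hg
      have hg'' : g' = g := hg'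
      subst hg''
      have h1 : ((g', q) * (a, 1) * (g', q)⁻¹ : A5 × P) ∈ H :=
        mul_mem (mul_mem hgH ha) (inv_mem hgH)
      have h2 : ((g', q) * (a, 1) * (g', q)⁻¹ : A5 × P) = (g' * a * g'⁻¹, 1) := by
        ext1 <;> simp
      rw [h2] at h1
      exact h1
    have hNt : N = ⊤ := by
      rcases hNn.eq_bot_or_eq_top with e | e
      · exfalso
        have hdiv : Nat.card H ∣ 2 ^ m := by
          rw [← hP]
          let g : H →* P := (MonoidHom.snd A5 P).comp H.subtype
          refine Subgroup.card_dvd_of_injective g ?_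
          rw [injective_iff_map_eq_one]
          intro x hx
          have h1 : x.1.2 = 1 := hx
          have h2 : x.1.1 ∈ N := by
            show (x.1.1, (1 : P)) ∈ H
            rw [← h1]
            exact x.2
          rw [e, Subgroup.mem_bot] at h2
          apply Subtype.ext
          apply Prod.ext
          · exact h2
          · exact h1
        rw [hcard, htop, Subgroup.card_top, card_A5] at hdiv
        have h3 : 3 ∣ 2 ^ m := (Dvd.dvd.mul_right (by norm_num : 3 ∣ 60) _).trans hdiv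
        have := Nat.prime_three.dvd_of_dvd_pow h3
        omega
      · exact e
    have hHeq : H = (⊤ : Subgroup A5).prod (H.comap (MonoidHom.inr A5 P)) := by
      ext ⟨a, q⟩
      rw [Subgroup.mem_prod]
      have ha : ((a, 1) : A5 × P) ∈ H := by
        have : a ∈ N := by rw [hNt]; trivial
        exact this
      constructor
      · intro h
        refine ⟨trivial, ?_⟩
        have h2 := mul_mem (inv_mem ha) h
        have e : ((a, 1) : A5 × P)⁻¹ * (a, q) = (1, q) := by ext1 <;> simp
        rw [e] at h2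
        exact h2
      · rintro ⟨-, h⟩
        have h2 := mul_mem ha h
        have e : ((a, 1) : A5 × P) * (MonoidHom.inr A5 P q) = (a, q) := by ext1 <;> simp
        rw [e] at h2
        exact h2
    refine ⟨Nat.card (H.comap (MonoidHom.inr A5 P)), ⟨_, rfl, ?_⟩, ?_⟩
    · intro hn
      apply hHn
      rw [hHeq]
      exact Subgroup.prod_normal _ _
    · rw [← hH]
      conv_lhs => rw [hHeq, card_prod', Subgroup.card_top, card_A5]
  · have h1 := card_le _ htop
    have hne : n ≠ 1 := by
      intro h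
      apply hHn
      rw [h, Subgroup.card_eq_one] at hH
      rw [hH]
      infer_instance
    rw [hH] at hcard
    rcases h1 with e | e | e | e | e | e | e | e <;> rw [e] at hcard
    · left
      have hb0 : b ≠ 0 := by
        rintro rfl
        apply hne
        rw [hcard]
        norm_num
      refine ⟨b - 1, by omega, ?_⟩
      rw [hcard, Nat.sub_add_cancel (by omega), one_mul]
    · left
      exact ⟨b, by omega, by rw [hcard, pow_succ]; ring⟩
    · right; left
      exact ⟨b, by omega, hcard⟩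
    · left
      exact ⟨b + 1, by omega, by rw [hcard]; ring⟩
    · right; right; left
      exact ⟨b, by omega, hcard⟩
    · right; left
      exact ⟨b + 1, by omega, by rw [hcard]; ring⟩
    · right; right; left
      exact ⟨b + 1, by omega, by rw [hcard]; ring⟩
    · right; left
      exact ⟨b + 2, by omega, by rw [hcard]; ring⟩

theorem NN_eq {m : ℕ} (hP : Nat.card P = 2 ^ m) : NN (A5 × P) =
    (fun a => 2 ^ (a + 1)) '' Set.Iio (m + 2) ∪ ((fun a => 3 * 2 ^ a) '' Set.Iio (m + 3) ∪
      ((fun a => 5 * 2 ^ a) '' Set.Iio (m + 2) ∪ (fun q => 60 * q) '' NN P)) := by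
  ext n
  constructor
  · intro hn
    rcases mem_NN_cases hP n hn with ⟨a, ha, e⟩ | ⟨a, ha, e⟩ | ⟨a, ha, e⟩ | ⟨q, hq, e⟩
    · exact Or.inl ⟨a, ha, e.symm⟩
    · exact Or.inr (Or.inl ⟨a, ha, e.symm⟩)
    · exact Or.inr (Or.inr (Or.inl ⟨a, ha, e.symm⟩))
    · exact Or.inr (Or.inr (Or.inr ⟨q, hq, e.symm⟩))
  · rintro (⟨a, ha, rfl⟩ | ⟨a, ha, rfl⟩ | ⟨a, ha, rfl⟩ | ⟨q, hq, rfl⟩)
    · rw [Set.mem_Iio] at ha
      by_cases h : a = m + 1
      · subst h
        have := mem_NN_of hP (le_refl m) (h := 4) (by norm_num)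
        convert this using 1
        show 2 ^ (m + 1 + 1) = _
        ring
      · have := mem_NN_of hP (b := a) (by omega) (h := 2) (by norm_num)
        convert this using 1
        show 2 ^ (a + 1) = _
        ring
    · rw [Set.mem_Iio] at ha
      by_cases h : a = m + 2
      · subst h
        have := mem_NN_of hP (le_refl m) (h := 12) (by norm_num)
        convert this using 1
        show 3 * 2 ^ (m + 2) = _
        ring
      · by_cases h : a = m + 1
        · subst h
          have := mem_NN_of hP (le_refl m) (h := 6) (by norm_num)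
          convert this using 1
          show 3 * 2 ^ (m + 1) = _
          ring
        · exact mem_NN_of hP (b := a) (by omega) (h := 3) (by norm_num)
    · rw [Set.mem_Iio] at ha
      by_cases h : a = m + 1
      · subst h
        have := mem_NN_of hP (le_refl m) (h := 10) (by norm_num)
        convert this using 1
        show 5 * 2 ^ (m + 1) = _
        ring
      · exact mem_NN_of hP (b := a) (by omega) (h := 5) (by norm_num)
    · obtain ⟨Q, hQ, hQn⟩ := hq
      refine ⟨(⊤ : Subgroup A5).prod Q, ?_, prod_not_normal_right _ _ hQn⟩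
      rw [card_prod', Subgroup.card_top, card_A5, hQ]

theorem NN_finite : (NN P).Finite := by
  refine (Set.finite_Iic (Nat.card P)).subset ?_
  rintro n ⟨H, hH, -⟩
  rw [Set.mem_Iic, ← hH]
  exact Nat.le_of_dvd Nat.card_pos (Subgroup.card_subgroup_dvd_card H)

theorem not_dvd_two_pow {p : ℕ} (hp : p.Prime) (h2 : p ≠ 2) (a : ℕ) : ¬ p ∣ 2 ^ a := by
  intro h
  have := hp.dvd_of_dvd_pow h
  exact h2 ((Nat.prime_dvd_prime_iff_eq hp Nat.prime_two).mp this)

theorem ie_prod {m : ℕ} (hP : Nat.card P = 2 ^ m) : ie (A5 × P) = 3 * m + 7 + ie P := by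
  have h3 := not_dvd_two_pow Nat.prime_three (by norm_num)
  have h5 := not_dvd_two_pow Nat.prime_five (by norm_num)
  have c1 : ((fun a => 2 ^ (a + 1)) '' Set.Iio (m + 2) : Set ℕ).ncard = m + 2 := by
    rw [Set.ncard_image_of_injective]
    · rw [← Nat.card_coe_set_eq]; simp
    · intro a b h
      have := Nat.pow_right_injective (le_refl 2) h
      omega
  have c2 : ((fun a => 3 * 2 ^ a) '' Set.Iio (m + 3) : Set ℕ).ncard = m + 3 := by
    rw [Set.ncard_image_of_injective]
    · rw [← Nat.card_coe_set_eq]; simp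
    · intro a b h
      exact Nat.pow_right_injective (le_refl 2) (Nat.eq_of_mul_eq_mul_left (by norm_num) h)
  have c3 : ((fun a => 5 * 2 ^ a) '' Set.Iio (m + 2) : Set ℕ).ncard = m + 2 := by
    rw [Set.ncard_image_of_injective]
    · rw [← Nat.card_coe_set_eq]; simp
    · intro a b h
      exact Nat.pow_right_injective (le_refl 2) (Nat.eq_of_mul_eq_mul_left (by norm_num) h)
  have c4 : ((fun q => 60 * q) '' NN P : Set ℕ).ncard = ie P := by
    rw [Set.ncard_image_of_injective]
    · rfl
    · intro a b h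
      exact Nat.eq_of_mul_eq_mul_left (by norm_num) h
  have f1 : ((fun a => 2 ^ (a + 1)) '' Set.Iio (m + 2) : Set ℕ).Finite :=
    (Set.finite_Iio _).image _
  have f2 : ((fun a => 3 * 2 ^ a) '' Set.Iio (m + 3) : Set ℕ).Finite :=
    (Set.finite_Iio _).image _
  have f3 : ((fun a => 5 * 2 ^ a) '' Set.Iio (m + 2) : Set ℕ).Finite :=
    (Set.finite_Iio _).image _
  have f4 : ((fun q => 60 * q) '' NN P : Set ℕ).Finite := NN_finite.image _
  rw [ie, NN_eq hP, Set.ncard_union_eq ?_ f1 (f2.union (f3.union f4)),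
    Set.ncard_union_eq ?_ f2 (f3.union f4), Set.ncard_union_eq ?_ f3 f4, c1, c2, c3, c4]
  · ring
  · rw [Set.disjoint_left]
    rintro _ ⟨a, -, rfl⟩ ⟨q, -, h⟩
    have h' : 60 * q = 5 * 2 ^ a := h
    have : 3 ∣ 5 * 2 ^ a := by rw [← h']; exact Dvd.dvd.mul_right (by norm_num) _
    rcases (Nat.prime_three.dvd_mul).mp this with h | h
    · omega
    · exact h3 _ h
  · rw [Set.disjoint_left]
    rintro _ ⟨a, -, rfl⟩ (⟨b, -, h⟩ | ⟨q, -, h⟩)
    · have h' : 5 * 2 ^ b = 3 * 2 ^ a := h
      have : 3 ∣ 5 * 2 ^ b := by rw [h']; exact Dvd.intro _ rfl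
      rcases (Nat.prime_three.dvd_mul).mp this with h | h
      · omega
      · exact h3 _ h
    · have h' : 60 * q = 3 * 2 ^ a := h
      have : 5 ∣ 3 * 2 ^ a := by rw [← h']; exact Dvd.dvd.mul_right (by norm_num) _
      rcases (Nat.prime_five.dvd_mul).mp this with h | h
      · omega
      · exact h5 _ h
  · rw [Set.disjoint_left]
    rintro _ ⟨a, -, rfl⟩ (⟨b, -, h⟩ | ⟨b, -, h⟩ | ⟨q, -, h⟩)
    · have h' : 3 * 2 ^ b = 2 ^ (a + 1) := h
      exact h3 (a + 1) (by rw [← h']; exact Dvd.intro _ rfl)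
    · have h' : 5 * 2 ^ b = 2 ^ (a + 1) := h
      exact h5 (a + 1) (by rw [← h']; exact Dvd.intro _ rfl)
    · have h' : 60 * q = 2 ^ (a + 1) := h
      exact h3 (a + 1) (by rw [← h']; exact Dvd.dvd.mul_right (by norm_num) _)

end product

/-! ### Groups of Heisenberg type -/

/-- The embedding of the integers modulo `2` into the integers modulo `2 ^ (j + 1)`. -/
def t (j : ℕ) : ZMod 2 →+ ZMod (2 ^ (j + 1)) :=
  ZMod.lift 2 ⟨(zmultiplesHom (ZMod (2 ^ (j + 1)))) ((2 : ZMod (2 ^ (j + 1))) ^ j), by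
    rw [zmultiplesHom_apply, zsmul_eq_mul]
    have : ((2 ^ (j + 1) : ℕ) : ZMod (2 ^ (j + 1))) = 0 := ZMod.natCast_self _
    push_cast at this ⊢
    rw [← this]
    ring⟩

theorem t_one (j : ℕ) : t j 1 = 2 ^ j := by
  have h := ZMod.lift_coe 2 (⟨(zmultiplesHom (ZMod (2 ^ (j + 1)))) ((2 : ZMod (2 ^ (j + 1))) ^ j), by
    rw [zmultiplesHom_apply, zsmul_eq_mul]
    have : ((2 ^ (j + 1) : ℕ) : ZMod (2 ^ (j + 1))) = 0 := ZMod.natCast_self _
    push_cast at this ⊢
    rw [← this]
    ring⟩ : {f : ℤ →+ ZMod (2 ^ (j + 1)) // f (2 : ℕ) = 0}) 1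
  rw [Int.cast_one] at h
  show ZMod.lift 2 _ 1 = _
  rw [h]
  simp

theorem two_pow_ne (j : ℕ) : (2 : ZMod (2 ^ (j + 1))) ^ j ≠ 0 := by
  intro h
  have h1 : ((2 ^ j : ℕ) : ZMod (2 ^ (j + 1))) = 0 := by push_cast; exact h
  rw [ZMod.natCast_eq_zero_iff] at h1
  have := Nat.le_of_dvd (by positivity) h1
  rw [pow_succ] at this
  have h2 : 0 < 2 ^ j := by positivity
  omega

theorem t_cases (j : ℕ) (a : ZMod 2) : t j a = 0 ∨ t j a = 2 ^ j := by
  have : a = 0 ∨ a = 1 := by revert a; decide
  rcases this with rfl | rfl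
  · left; exact map_zero _
  · right; exact t_one j

theorem exists_mul (j : ℕ) (c : ZMod (2 ^ (j + 1))) (hc : c ≠ 0) :
    ∃ k : ℕ, k • c = 2 ^ j := by
  have hv : c.val ≠ 0 := fun h => hc ((ZMod.val_eq_zero c).mp h)
  obtain ⟨e, u, hu, he⟩ := Nat.exists_eq_two_pow_mul_odd hv
  have hlt : c.val < 2 ^ (j + 1) := ZMod.val_lt c
  have hej : e ≤ j := by
    by_contra h
    have h1 : 2 ^ (j + 1) ≤ 2 ^ e := Nat.pow_le_pow_right (by norm_num) (by omega)
    have h2 : 2 ^ e ≤ 2 ^ e * u := Nat.le_mul_of_pos_right _ hu.pos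
    omega
  refine ⟨2 ^ (j - e), ?_⟩
  obtain ⟨w, hw⟩ := hu
  have h1 : c = ((2 ^ e * u : ℕ) : ZMod (2 ^ (j + 1))) := by
    rw [← he, ZMod.natCast_zmod_val]
  rw [h1, nsmul_eq_mul, ← Nat.cast_mul]
  have h2 : 2 ^ (j - e) * (2 ^ e * u) = 2 ^ j + 2 ^ (j + 1) * w := by
    rw [← mul_assoc, ← pow_add, Nat.sub_add_cancel hej, hw]
    ring
  rw [h2, Nat.cast_add, Nat.cast_mul, ZMod.natCast_self, zero_mul, add_zero]
  push_cast
  rfl

/-- A central product of the dihedral group of order eight and a cyclic group. -/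
@[ext]
structure Hs (j : ℕ) where
  /-- the central coordinate -/
  c : ZMod (2 ^ (j + 1))
  /-- the first coordinate -/
  x : ZMod 2
  /-- the second coordinate -/
  y : ZMod 2

namespace Hs

variable {j : ℕ}

instance : Mul (Hs j) := ⟨fun a b => ⟨a.c + b.c + t j (a.x * b.y), a.x + b.x, a.y + b.y⟩⟩
instance : One (Hs j) := ⟨⟨0, 0, 0⟩⟩
instance : Inv (Hs j) := ⟨fun a => ⟨-a.c - t j (-a.x * a.y), -a.x, -a.y⟩⟩

@[simp] theorem mul_c (a b : Hs j) : (a * b).c = a.c + b.c + t j (a.x * b.y) := rfl
@[simp] theorem mul_x (a b : Hs j) : (a * b).x = a.x + b.x := rfl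
@[simp] theorem mul_y (a b : Hs j) : (a * b).y = a.y + b.y := rfl
@[simp] theorem one_c : (1 : Hs j).c = 0 := rfl
@[simp] theorem one_x : (1 : Hs j).x = 0 := rfl
@[simp] theorem one_y : (1 : Hs j).y = 0 := rfl
@[simp] theorem inv_c (a : Hs j) : (a⁻¹).c = -a.c - t j (-a.x * a.y) := rfl
@[simp] theorem inv_x (a : Hs j) : (a⁻¹).x = -a.x := rfl
@[simp] theorem inv_y (a : Hs j) : (a⁻¹).y = -a.y := rfl

instance : Group (Hs j) where
  mul_assoc a b c := by
    ext1
    · simp only [mul_c, mul_x, mul_y, mul_add, add_mul, map_add]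
      abel
    · simp only [mul_x, add_assoc]
    · simp only [mul_y, add_assoc]
  one_mul a := by ext1 <;> simp
  mul_one a := by ext1 <;> simp
  inv_mul_cancel a := by
    ext1
    · simp only [mul_c, inv_c, inv_x, one_c]
      abel
    · exact neg_add_cancel _
    · exact neg_add_cancel _

/-- The underlying type. -/
def equivProd : Hs j ≃ ZMod (2 ^ (j + 1)) × ZMod 2 × ZMod 2 where
  toFun a := (a.c, a.x, a.y)
  invFun p := ⟨p.1, p.2.1, p.2.2⟩
  left_inv _ := rfl
  right_inv _ := rfl

instance : Finite (Hs j) := Finite.of_equiv _ equivProd.symm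

theorem card : Nat.card (Hs j) = 2 ^ (j + 3) := by
  rw [Nat.card_congr equivProd, Nat.card_prod, Nat.card_prod, Nat.card_zmod, Nat.card_zmod]
  ring

/-- The projection. -/
def pr : Hs j →* Multiplicative (ZMod 2) × Multiplicative (ZMod 2) where
  toFun a := (Multiplicative.ofAdd a.x, Multiplicative.ofAdd a.y)
  map_one' := rfl
  map_mul' _ _ := rfl

/-- The central element of order two. -/
def z : Hs j := ⟨2 ^ j, 0, 0⟩

end Hs

section hsprod

variable {j i : ℕ} {A : Type} [CommGroup A] [Finite A]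

theorem comm_cases (g h : Hs j × A) : g * h * g⁻¹ = h ∨ g * h * g⁻¹ = (Hs.z, 1) * h := by
  have key : g * h * g⁻¹ = (⟨t j (g.1.x * h.1.y + h.1.x * g.1.y), 0, 0⟩, 1) * h := by
    rw [mul_inv_eq_iff_eq_mul]
    ext1
    · ext1
      · simp only [Prod.fst_mul, Hs.mul_c, zero_mul, map_zero, add_zero, Hs.mul_x, map_add,
          zero_add]
        have h2 : t j (h.1.x * g.1.y) + t j (h.1.x * g.1.y) = 0 := by
          rw [← map_add]
          have : h.1.x * g.1.y + h.1.x * g.1.y = 0 := CharTwo.add_self_eq_zero _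
          rw [this, map_zero]
        calc g.1.c + h.1.c + t j (g.1.x * h.1.y) =
            t j (g.1.x * h.1.y) + h.1.c + g.1.c := by abel
          _ = t j (g.1.x * h.1.y) + h.1.c + g.1.c +
              (t j (h.1.x * g.1.y) + t j (h.1.x * g.1.y)) := by rw [h2, add_zero]
          _ = _ := by abel
      · simp only [Prod.fst_mul, Hs.mul_x, zero_add]
        exact add_comm _ _
      · simp only [Prod.fst_mul, Hs.mul_y, zero_add]
        exact add_comm _ _
    · simp only [Prod.snd_mul, one_mul]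
      exact mul_comm _ _
  rw [key]
  rcases t_cases j (g.1.x * h.1.y + h.1.x * g.1.y) with e | e
  · left
    rw [e]
    exact one_mul h
  · right
    rw [e]
    rfl

theorem normal_of_z_mem (H : Subgroup (Hs j × A)) (hz : ((Hs.z, 1) : Hs j × A) ∈ H) :
    H.Normal := by
  constructor
  intro h hh g
  rcases comm_cases g h with e | e
  · rw [e]; exact hh
  · rw [e]; exact mul_mem hz hh

/-- The projection of the product. -/
def prA : Hs j × A →* (Multiplicative (ZMod 2) × Multiplicative (ZMod 2)) × A :=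
  Hs.pr.prodMap (MonoidHom.id A)

theorem prA_inj (H : Subgroup (Hs j × A)) (hz : ((Hs.z, 1) : Hs j × A) ∉ H) :
    Function.Injective (prA.comp H.subtype) := by
  rw [injective_iff_map_eq_one]
  rintro ⟨⟨⟨c, x, y⟩, a⟩, hH⟩ h1
  have hx : x = 0 := congrArg (fun p : (Multiplicative (ZMod 2) × Multiplicative (ZMod 2)) × A =>
    Multiplicative.toAdd p.1.1) h1
  have hy : y = 0 := congrArg (fun p : (Multiplicative (ZMod 2) × Multiplicative (ZMod 2)) × A =>
    Multiplicative.toAdd p.1.2) h1
  have ha : a = 1 := congrArg (fun p => p.2) h1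
  subst hx hy ha
  by_cases hc : c = 0
  · subst hc
    rfl
  · exfalso
    obtain ⟨k, hk⟩ := exists_mul j c hc
    apply hz
    have h2 := pow_mem hH k
    have h3 : ∀ n : ℕ, ((⟨c, 0, 0⟩, 1) : Hs j × A) ^ n = (⟨n • c, 0, 0⟩, 1) := by
      intro n
      induction n with
      | zero => rw [pow_zero, zero_smul]; rfl
      | succ n ih =>
        rw [pow_succ, ih]
        ext1
        · ext1
          · show n • c + c + t j (0 * 0) = (n + 1) • c
            rw [mul_zero, map_zero, add_zero, succ_nsmul]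
          · simp
          · simp
        · simp
    rw [h3, hk] at h2
    exact h2

theorem NN_hs (hA : Nat.card A = 2 ^ i) :
    NN (Hs j × A) = (fun a => 2 ^ (a + 1)) '' Set.Iio (i + 1) := by
  ext n
  constructor
  · rintro ⟨H, hH, hHn⟩
    have hz : ((Hs.z, 1) : Hs j × A) ∉ H := fun h => hHn (normal_of_z_mem H h)
    have hinj := prA_inj H hz
    have hdiv := Subgroup.card_dvd_of_injective _ hinj
    have hcard : Nat.card ((Multiplicative (ZMod 2) × Multiplicative (ZMod 2)) × A) =
        2 ^ (i + 2) := by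
      rw [Nat.card_prod, Nat.card_prod, Nat.card_congr Multiplicative.toAdd, Nat.card_zmod, hA]
      ring
    rw [hcard] at hdiv
    obtain ⟨b, hb, hb'⟩ := (Nat.dvd_prime_pow Nat.prime_two).mp hdiv
    have hb2 : b ≠ i + 2 := by
      rintro rfl
      -- then the projection is onto
      have hbij : Function.Bijective (prA.comp H.subtype) := by
        rw [Nat.bijective_iff_injective_and_card]
        exact ⟨hinj, by rw [hb', hcard]⟩
      obtain ⟨⟨⟨⟨c1, x1, y1⟩, a1⟩, m1⟩, e1⟩ := hbij.2
        ((Multiplicative.ofAdd 1, Multiplicative.ofAdd 0), 1)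
      obtain ⟨⟨⟨⟨c2, x2, y2⟩, a2⟩, m2⟩, e2⟩ := hbij.2
        ((Multiplicative.ofAdd 0, Multiplicative.ofAdd 1), 1)
      have hx1 : x1 = 1 := congrArg (fun p : (Multiplicative (ZMod 2) × Multiplicative (ZMod 2)) × A =>
    Multiplicative.toAdd p.1.1) e1
      have hy1 : y1 = 0 := congrArg (fun p : (Multiplicative (ZMod 2) × Multiplicative (ZMod 2)) × A =>
    Multiplicative.toAdd p.1.2) e1
      have ha1 : a1 = 1 := congrArg (fun p => p.2) e1
      have hx2 : x2 = 0 := congrArg (fun p : (Multiplicative (ZMod 2) × Multiplicative (ZMod 2)) × A =>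
    Multiplicative.toAdd p.1.1) e2
      have hy2 : y2 = 1 := congrArg (fun p : (Multiplicative (ZMod 2) × Multiplicative (ZMod 2)) × A =>
    Multiplicative.toAdd p.1.2) e2
      have ha2 : a2 = 1 := congrArg (fun p => p.2) e2
      subst hx1 hy1 ha1 hx2 hy2 ha2
      apply hz
      have h1 := mul_mem (mul_mem m1 m2) (inv_mem (mul_mem m2 m1))
      have h2 : ((⟨c1, 1, 0⟩, 1) : Hs j × A) * (⟨c2, 0, 1⟩, 1) *
          ((⟨c2, 0, 1⟩, 1) * (⟨c1, 1, 0⟩, 1))⁻¹ = (Hs.z, 1) := by
        rw [mul_inv_eq_iff_eq_mul]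
        ext1
        · ext1
          · simp [Hs.z, t_one]
            abel
          · simp [Hs.z]
          · simp [Hs.z]
        · simp
      rw [h2] at h1
      exact h1
    have hb0 : b ≠ 0 := by
      rintro rfl
      apply hHn
      rw [pow_zero, Subgroup.card_eq_one] at hb'
      rw [hb']
      infer_instance
    refine ⟨b - 1, ?_, ?_⟩
    · rw [Set.mem_Iio]; omega
    · show 2 ^ (b - 1 + 1) = n
      rw [Nat.sub_add_cancel (by omega), ← hH, hb']
  · rintro ⟨a, ha, rfl⟩
    rw [Set.mem_Iio] at ha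
    obtain ⟨Q, hQ⟩ := exists_P hA (b := a) (by omega)
    -- the subgroup generated by a non-central involution
    let K : Subgroup (Hs j) :=
      { carrier := {g | g.c = 0 ∧ g.y = 0}
        mul_mem' := by
          rintro a b ⟨h1, h2⟩ ⟨h3, h4⟩
          refine ⟨?_, ?_⟩
          · rw [Hs.mul_c, h1, h3, h4, mul_zero, map_zero]; simp
          · rw [Hs.mul_y, h2, h4, add_zero]
        one_mem' := ⟨rfl, rfl⟩
        inv_mem' := by
          rintro a ⟨h1, h2⟩
          refine ⟨?_, ?_⟩
          · rw [Hs.inv_c, h1, h2, mul_zero, map_zero]; simp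
          · rw [Hs.inv_y, h2, neg_zero] }
    have hK : Nat.card K = 2 := by
      have : Nat.card K = Nat.card (ZMod 2) := by
        apply Nat.card_congr
        exact ⟨fun g => g.1.x, fun x => ⟨⟨0, x, 0⟩, rfl, rfl⟩, fun g => by
          apply Subtype.ext
          ext1
          · exact g.2.1.symm
          · rfl
          · exact g.2.2.symm, fun x => rfl⟩
      rw [this, Nat.card_zmod]
    have hKn : ¬ K.Normal := by
      intro hn
      have h1 : (⟨0, 1, 0⟩ : Hs j) ∈ K := ⟨rfl, rfl⟩
      have h2 := hn.conj_mem _ h1 ⟨0, 0, 1⟩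
      have h3 := h2.1
      simp only [Hs.mul_c, Hs.mul_x, Hs.inv_c, Hs.inv_y] at h3
      have h4 : t j 1 = 0 := by
        have e : (-1 : ZMod 2) = 1 := by decide
        simpa [e] using h3
      rw [t_one] at h4
      exact two_pow_ne j h4
    refine ⟨K.prod Q, ?_, prod_not_normal_left K Q hKn⟩
    rw [card_prod', hK, hQ]
    show 2 * 2 ^ a = 2 ^ (a + 1)
    ring

theorem ie_hs (hA : Nat.card A = 2 ^ i) : ie (Hs j × A) = i + 1 := by
  rw [ie, NN_hs hA, Set.ncard_image_of_injective]
  · rw [← Nat.card_coe_set_eq]; simp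
  · intro a b h
    have := Nat.pow_right_injective (le_refl 2) h
    omega

end hsprod

theorem ie_comm (A : Type) [CommGroup A] : ie A = 0 := by
  have : NN A = ∅ := by
    rw [Set.eq_empty_iff_forall_notMem]
    rintro n ⟨H, -, h⟩
    exact h inferInstance
  rw [ie, this, Set.ncard_empty]

/-! ### The results -/

theorem not_solvable (P : Type) [Group P] : ¬ Group.IsSolvable (A5 × P) := by
  intro h
  have h1 : Group.IsSolvable A5 :=
    Group.isSolvable_of_surjective (f := MonoidHom.fst A5 P) Prod.fst_surjective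
  have h2 := IsSimpleGroup.comm_iff_isSolvable.mpr h1
  have h3 : ∀ H : Subgroup A5, H.Normal := by
    intro H
    constructor
    intro n hn g
    rw [h2 g n, mul_inv_cancel_right]
    exact hn
  obtain ⟨H, -, hH⟩ := exists_A5 2 (by norm_num)
  exact hH (h3 H)

theorem not_simple (P : Type) [Group P] [Nontrivial P] : ¬ IsSimpleGroup (A5 × P) := by
  intro h
  have hn : (MonoidHom.fst A5 P).ker.Normal := inferInstance
  rcases hn.eq_bot_or_eq_top with e | e
  · obtain ⟨p, hp⟩ := exists_ne (1 : P)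
    have h1 : ((1, p) : A5 × P) ∈ (MonoidHom.fst A5 P).ker := rfl
    rw [e, Subgroup.mem_bot] at h1
    exact hp (congrArg Prod.snd h1)
  · obtain ⟨g, hg⟩ := exists_ne (1 : A5)
    have h1 : ((g, 1) : A5 × P) ∈ (MonoidHom.fst A5 P).ker := by rw [e]; trivial
    exact hg h1

/-- Every number that is at least `19` is `ie G` for a finite group `G` that is neither soluble nor
simple. -/
theorem exists_group (k : ℕ) (hk : 19 ≤ k) : ∃ (G : Type) (_ : Group G), Finite G ∧
    ¬ Group.IsSolvable G ∧ ¬ IsSimpleGroup G ∧ ie G = k := by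
  have key : ∀ (P : Type) [Group P] (_ : Finite P) (m : ℕ), Nat.card P = 2 ^ m → 0 < m →
      3 * m + 7 + ie P = k → ∃ (G : Type) (_ : Group G), Finite G ∧
      ¬ Group.IsSolvable G ∧ ¬ IsSimpleGroup G ∧ ie G = k := by
    intro P _ _ m hP hm he
    have : Nontrivial P := by
      rw [← Finite.one_lt_card_iff_nontrivial, hP]
      exact Nat.one_lt_two_pow hm.ne'
    exact ⟨A5 × P, inferInstance, inferInstance, not_solvable P, not_simple P,
      by rw [ie_prod hP, he]⟩
  have h3 : k % 3 = 0 ∨ k % 3 = 1 ∨ k % 3 = 2 := by omega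
  rcases h3 with h | h | h
  · obtain ⟨j, rfl⟩ : ∃ j, k = 3 * j + 21 := ⟨(k - 21) / 3, by omega⟩
    have hA : Nat.card (Multiplicative (ZMod 2)) = 2 ^ 1 := by
      rw [Nat.card_congr Multiplicative.toAdd, Nat.card_zmod]
      rfl
    refine key (Hs j × Multiplicative (ZMod 2)) inferInstance (j + 4) ?_ (by omega) ?_
    · rw [Nat.card_prod, Hs.card, hA]
      ring
    · rw [ie_hs hA]
      ring
  · obtain ⟨j, rfl⟩ : ∃ j, k = 3 * j + 7 := ⟨(k - 7) / 3, by omega⟩
    refine key (Multiplicative (ZMod (2 ^ j))) inferInstance j ?_ (by omega) ?_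
    · rw [Nat.card_congr Multiplicative.toAdd, Nat.card_zmod]
    · rw [ie_comm, add_zero]
  · obtain ⟨j, rfl⟩ : ∃ j, k = 3 * j + 17 := ⟨(k - 17) / 3, by omega⟩
    have hA : Nat.card (Multiplicative (ZMod 1)) = 2 ^ 0 := by
      rw [Nat.card_congr Multiplicative.toAdd, Nat.card_zmod]
      rfl
    refine key (Hs j × Multiplicative (ZMod 1)) inferInstance (j + 3) ?_ (by omega) ?_
    · rw [Nat.card_prod, Hs.card, hA]
      ring
    · rw [ie_hs hA]
      ring

/-- Both sets of numbers are finite, and no number `k ≥ 19` belongs to one of them. -/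
theorem result :
    {k : ℕ | 0 < k ∧ ∀ (G : Type) [Group G] [Finite G], ie G = k → Group.IsSolvable G}.Finite ∧
    {k : ℕ | 0 < k ∧ (∃ (G : Type) (_ : Group G), Finite G ∧ IsSimpleGroup G ∧ ie G = k) ∧
      ∀ (G : Type) [Group G] [Finite G], ¬ Group.IsSolvable G → ¬ IsSimpleGroup G →
        ie G ≠ k}.Finite ∧
    ∀ k : ℕ, 19 ≤ k → ∃ (G : Type) (_ : Group G), Finite G ∧
      ¬ Group.IsSolvable G ∧ ¬ IsSimpleGroup G ∧ ie G = k := by
  refine ⟨?_, ?_, exists_group⟩
  · refine (Set.finite_Iio 19).subset ?_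
    rintro k ⟨-, hk⟩
    rw [Set.mem_Iio]
    by_contra h
    obtain ⟨G, _, _, h1, h2, h3⟩ := exists_group k (by omega)
    exact h1 (hk G h3)
  · refine (Set.finite_Iio 19).subset ?_
    rintro k ⟨-, -, hk⟩
    rw [Set.mem_Iio]
    by_contra h
    obtain ⟨G, _, _, h1, h2, h3⟩ := exists_group k (by omega)
    exact hk G h1 h2 h3

end Pool.Agent.Results.MP_927db0_al.BothFinite
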